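import Mathlib
import Pool.Agent.P.MP_19f369_gt.Final

set_option autoImplicit false
open Set Filter Topology

namespace Pool.Agent.Results.MP_19f369_gt.NotRightBounded

/-- `S(X)`: the continuous maps `X → X`, as a subspace of the product space `X^X`
(topology of pointwise convergence). -/
abbrev SelfMaps (X : Type) [TopologicalSpace X] : Type := {f : X → X // Continuous f}

/-- `S(X)` is right bounded: for every neighbourhood `U` of the identity there is a finite
`F` with `S(X) = U F`, the product being composition. -/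
def RightBounded (X : Type) [TopologicalSpace X] : Prop :=
  ∀ U ∈ 𝓝 (⟨id, continuous_id⟩ : SelfMaps X), ∃ F : Set (SelfMaps X), F.Finite ∧
    ∀ g : SelfMaps X, ∃ u ∈ U, ∃ f ∈ F, g.1 = u.1 ∘ f.1

/-- Any point is mapped to any other point by a homeomorphism of `X` onto itself. -/
def Homogeneous (X : Type) [TopologicalSpace X] : Prop :=
  ∀ x y : X, ∃ h : X ≃ₜ X, h x = y

/-- Covering dimension zero: `X` is nonempty and every finite open cover has a finite open
refinement that covers `X` and consists of pairwise disjoint sets. -/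
def CoveringDimZero (X : Type) [TopologicalSpace X] : Prop :=
  Nonempty X ∧ ∀ 𝒰 : Set (Set X), 𝒰.Finite → (∀ U ∈ 𝒰, IsOpen U) → ⋃₀ 𝒰 = univ →
    ∃ 𝒱 : Set (Set X), 𝒱.Finite ∧ (∀ V ∈ 𝒱, IsOpen V ∧ ∃ U ∈ 𝒰, V ⊆ U) ∧ ⋃₀ 𝒱 = univ ∧
      𝒱.PairwiseDisjoint id

/-- There is a separable metrizable, zero-dimensional, homogeneous space `X` whose semigroup of
continuous self-maps is not right bounded. -/
theorem result : ∃ (X : Type) (_ : TopologicalSpace X),
    TopologicalSpace.MetrizableSpace X ∧ SecondCountableTopology X ∧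
      CoveringDimZero X ∧ Homogeneous X ∧ ¬ RightBounded X := by
  obtain ⟨X, hb, hX⟩ := Pool.Agent.P.MP_19f369_gt.exists_space
  have h1 : TopologicalSpace.MetrizableSpace X :=
    inferInstanceAs (TopologicalSpace.MetrizableSpace (X : Set (ℕ → ZMod 2)))
  have h2 : SecondCountableTopology X :=
    inferInstanceAs (SecondCountableTopology (X : Set (ℕ → ZMod 2)))
  refine ⟨X, inferInstance, h1, h2,
    ⟨⟨0⟩, Pool.Agent.P.MP_19f369_gt.dim_zero hb⟩, fun x y => ⟨Homeomorph.addRight (y - x), ?_⟩,
    hX⟩
  simp

end Pool.Agent.Results.MP_19f369_gt.NotRightBounded
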